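import Pool.Agent.Lib.BHR_h63.Wrap

set_option autoImplicit false

/-!
Rigidity of the Fourier matrix among Butson matrices of prime order.
-/

namespace Pool.Agent.Results.MP_e1cd9e_co.Rigidity

/-- `H` is in `BH(p,p)`: all entries are `p`-th roots of unity and `H Hᴴ = p I`. -/
def IsButson (p : ℕ) (H : Matrix (Fin p) (Fin p) ℂ) : Prop :=
  (∀ i j, H i j ^ p = 1) ∧ H * H.conjTranspose = (p : ℂ) • (1 : Matrix (Fin p) (Fin p) ℂ)

/-- `H` is equivalent to the Fourier matrix `F_p`. -/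
def EquivFourier (p : ℕ) (H : Matrix (Fin p) (Fin p) ℂ) : Prop :=
  ∃ σ τ : Equiv.Perm (Fin p), ∃ a b : Fin p → ℂ,
    (∀ i, a i ^ p = 1) ∧ (∀ j, b j ^ p = 1) ∧
    ∀ i j, H i j = a i * b j *
      Complex.exp (2 * (Real.pi : ℂ) * Complex.I *
        (((σ i).val * (τ j).val : ℕ) : ℂ) / (p : ℂ))

/-- `K i j = a i * b j * ω ^ (s i * t j)` with `p`-th roots of unity `a i`, `b j` and arbitrary
natural numbers `s i`, `t j` (repetitions allowed), `ω = exp (2 π i / p)`. The matrices
equivalent to `F_p` are those for which `s` and `t` are permutations of `0, …, p - 1`. -/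
def RankOnePhases (p : ℕ) (K : Matrix (Fin p) (Fin p) ℂ) : Prop :=
  ∃ s t : Fin p → ℕ, ∃ a b : Fin p → ℂ,
    (∀ i, a i ^ p = 1) ∧ (∀ j, b j ^ p = 1) ∧
    ∀ i j, K i j = a i * b j *
      Complex.exp (2 * (Real.pi : ℂ) * Complex.I * ((s i * t j : ℕ) : ℂ) / (p : ℂ))

open Classical in
/-- The number of positions in the rows `R` and columns `C` at which `H` and `K` differ. -/
noncomputable def errors (p : ℕ) (H K : Matrix (Fin p) (Fin p) ℂ) (R C : Finset (Fin p)) : ℕ :=
  ((R ×ˢ C).filter fun z => H z.1 z.2 ≠ K z.1 z.2).card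

/-- **Rigidity of the Fourier matrix.** Let `p` be a prime, `H ∈ BH(p,p)`, let `R`, `C` be sets of
`r` rows and `c` columns with `w := min (r + 2 c + 2 - 2 p, 2 r + 2 - p) ≥ 0`, and let `K` be a
matrix of the form `K i j = a i * b j * ω ^ (s i * t j)`. If `H` and `K` differ in at most
`w p / 48` entries of the `r × c` submatrix, then `H` is equivalent to `F_p`. -/
theorem result (p : ℕ) (hp : p.Prime) (H K : Matrix (Fin p) (Fin p) ℂ)
    (hH : IsButson p H) (hK : RankOnePhases p K) (R C : Finset (Fin p))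
    (h1 : 48 * errors p H K R C + 2 * p * p ≤ (R.card + 2 * C.card + 2) * p)
    (h2 : 48 * errors p H K R C + p * p ≤ (2 * R.card + 2) * p) :
    EquivFourier p H := by
  classical
  haveI : Fact p.Prime := ⟨hp⟩
  obtain ⟨s, t, a, b, ha, hb, hK'⟩ := hK
  refine Pool.Agent.Lib.BHR_h63.cx_rigid H K hH.1 hH.2 s t a b ha hb hK' R C (errors p H K R C)
    (le_of_eq ?_) h1 h2
  unfold errors
  congr

end Pool.Agent.Results.MP_e1cd9e_co.Rigidity
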